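import Mathlib

set_option autoImplicit false

namespace Pool.Agent.Results.MP_1599f7_gt.Free

open Set Filter Function Topology TopologicalSpace

def Lusin (X : Type) [TopologicalSpace X] : Prop :=
  T2Space X ∧ (∀ N : Set X, IsNowhereDense N → N.Countable) ∧
    {x : X | IsOpen {x}}.Countable ∧ Uncountable X

/-- open cover not containing the whole space -/
def Cover {X : Type} [TopologicalSpace X] (𝒰 : Set (Set X)) : Prop :=
  (∀ U ∈ 𝒰, IsOpen U) ∧ ⋃₀ 𝒰 = univ ∧ univ ∉ 𝒰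

def GammaSpace (X : Type) [TopologicalSpace X] : Prop :=
  ∀ 𝒰 : Set (Set X), Cover 𝒰 → (∀ F : Set X, F.Finite → ∃ U ∈ 𝒰, F ⊆ U) →
    ∃ 𝒱 ⊆ 𝒰, Cover 𝒱 ∧ 𝒱.Infinite ∧ ∀ x, {U ∈ 𝒱 | x ∉ U}.Finite

/-- height of a node -/
noncomputable def ht {T : Type} [PartialOrder T] [WellFoundedLT T] (t : T) : Ordinal :=
  IsWellFounded.rank (· < ·) t

/-- normal infinitely splitting free Suslin tree -/
def FreeTree (T : Type) [PartialOrder T] [WellFoundedLT T] : Prop :=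
  (∀ t : T, IsChain (· ≤ ·) (Iic t)) ∧ Uncountable T ∧
  (∀ C : Set T, IsChain (· ≤ ·) C → C.Countable) ∧
  (∀ A : Set T, IsAntichain (· ≤ ·) A → A.Countable) ∧
  (∀ t : T, {s | t ⋖ s}.Infinite) ∧
  (∀ s t : T, ht s ≤ ht t → ∃ s', s ≤ s' ∧ ht s' = ht t) ∧
  ∀ (n : ℕ) (a : Fin n → T), Injective a → (∀ i j, ht (a i) = ht (a j)) →
    ∀ A : Set (Fin n → T), (∀ s ∈ A, a ≤ s ∧ ∀ i j, ht (s i) = ht (s j)) →
      IsAntichain (· ≤ ·) A → A.Countable

lemma anti {α : Type} [PartialOrder α] (P : α → Prop) : IsAntichain (· ≤ ·) {a | Minimal P a} :=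
  fun _ ha _ hb n k => n (le_antisymm k (hb.2 ha.1 k))

/-- From a free Suslin tree: a regular Lusin space that is a `γ`-space. -/
theorem result (h : ∃ (T : Type) (_ : PartialOrder T) (_ : WellFoundedLT T), FreeTree T) :
    ∃ (X : Type) (_ : TopologicalSpace X), T3Space X ∧ Lusin X ∧ GammaSpace X := by
  classical
  obtain ⟨T, _, _, tr, un, ch, an, sp, no, spe⟩ := h
  have cmp : ∀ {x a b : T}, a ≤ x → b ≤ x → a ≤ b ∨ b ≤ a := fun {x a b} ha hb =>
    (tr x).total ha hb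
  have mono : StrictMono (ht : T → Ordinal) := WellFoundedLT.rank_strictMono
  let e : T → T → Bool := fun t s => decide (s ≤ t)
  letI : TopologicalSpace T := induced e inferInstance
  have emb : IsEmbedding e := ⟨⟨rfl⟩, fun s t h => le_antisymm
    (by simpa [e] using congrFun h s) (by simpa [e] using congrFun h t)⟩
  have op : ∀ t : T, IsOpen (Ici t) := fun t => by
    have : Ici t = (fun x => e x t) ⁻¹' {true} := by ext; simp [e]
    rw [this]
    exact (isOpen_discrete _).preimage ((continuous_apply t).comp emb.continuous)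
  have nb : ∀ U : Set T, IsOpen U → ∀ t ∈ U, ∃ s, t < s ∧ Ici s ⊆ U := by
    rintro _ ⟨V, hV, rfl⟩ t ht
    obtain ⟨I, u, u1, u2⟩ := isOpen_pi_iff.mp hV _ ht
    have : (⋃ i ∈ I, {s | t ⋖ s ∧ s ≤ i}).Finite := I.finite_toSet.biUnion fun i _ =>
      Set.Subsingleton.finite fun s hs s' hs' => (cmp hs.2 hs'.2).elim
        (fun k => (hs'.1.eq_or_eq hs.1.le k).resolve_left hs.1.ne')
        fun k => ((hs.1.eq_or_eq hs'.1.le k).resolve_left hs'.1.ne').symm
    obtain ⟨s, s1, s2⟩ := ((sp t).diff this).nonempty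
    refine ⟨s, s1.lt, fun x hx => u2 fun i hi => ?_⟩
    have : e x i = e t i := by
      refine decide_eq_decide.mpr ⟨fun k => ?_, fun k => k.trans (s1.le.trans hx)⟩
      have k1 : ¬ s ≤ i := fun c => s2 (mem_iUnion₂.mpr ⟨i, hi, s1, c⟩)
      rcases cmp k (s1.le.trans hx) with c | c
      · exact c
      · rcases s1.eq_or_eq c ((cmp k hx).resolve_right k1) with rfl | rfl
        exacts [le_rfl, absurd le_rfl k1]
    rw [this]
    exact (u1 i hi).2
  haveI := emb.t3Space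
  refine ⟨T, inferInstance, inferInstance, ⟨inferInstance, fun N hN => ?_, ?_, un⟩,
    fun 𝒰 hU om => ?_⟩
  · refine ((an _ (anti fun a => Disjoint (Ici a) N)).biUnion fun a _ => ch _ (tr a)).mono
      fun y hy => ?_
    obtain ⟨x, x1, x2⟩ : (Ici y ∩ (closure N)ᶜ).Nonempty := by
      by_contra t
      have : Ici y ⊆ interior (closure N) := interior_maximal
        (fun z hz => not_not.mp fun u => t ⟨z, hz, u⟩) (op y)
      rw [hN] at this
      exact this le_rfl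
    obtain ⟨s, s1, s2⟩ := nb _ isClosed_closure.isOpen_compl x x2
    obtain ⟨a, a1, a2⟩ := exists_minimal_le_of_wellFoundedLT (fun a => Disjoint (Ici a) N) s
      (disjoint_left.mpr fun z hz u => s2 hz (subset_closure u))
    rcases cmp a1 (x1.trans s1.le) with c | c
    · exact absurd hy (disjoint_left.mp a2.1 c)
    · exact mem_biUnion a2 c
  · refine countable_empty.mono fun x hx => ?_
    obtain ⟨s, s1, s2⟩ := nb _ hx x rfl
    exact s1.ne' (s2 le_rfl)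
  have pred : ∀ x q : T, ht q ≤ ht x → ∃ a, a ≤ x ∧ ht a = ht q := fun x q h => by
    obtain ⟨a, a1, a2⟩ := exists_minimal_le_of_wellFoundedLT (fun a => ht q ≤ ht a) x h
    refine ⟨a, a1, le_antisymm ?_ a2.1⟩
    show IsWellFounded.rank _ a ≤ _
    rw [IsWellFounded.rank_eq]
    exact Ordinal.iSup_le fun b => Order.succ_le_of_lt (not_le.mp fun k =>
      b.2.not_ge (a2.2 k b.2.le))
  have below : ∀ {x a b : T}, a ≤ x → b ≤ x → ht a ≤ ht b → a ≤ b := fun ha hb h =>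
    (cmp ha hb).elim id fun k => k.eq_or_lt.elim (fun l => l.ge) fun l => absurd h (mono l).not_ge
  let E : (m n : ℕ) → (Fin m → T) → (Fin n → T) → (Fin n → T) → Prop := fun m n u a s =>
    (a ≤ s ∧ ∀ i j, ht (s i) = ht (s j)) ∧ ∃ U ∈ 𝒰, range u ⊆ U ∧ ∀ i, Ici (s i) ⊆ U
  let Φ : Set T → Set T := fun S => {t | ∃ s ∈ S, ht t ≤ ht s} ∪ ⋃ m, ⋃ n,
    ⋃ u ∈ {u : Fin m → T | ∀ i, u i ∈ S}, ⋃ a ∈ {a : Fin n → T | ∀ i, a i ∈ S},
      ⋃ _ : Injective a ∧ ∀ i j, ht (a i) = ht (a j), ⋃ s ∈ {s | Minimal (E m n u a) s}, range s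
  have cΦ : ∀ S : Set T, S.Countable → (Φ S).Countable := fun S hS => by
    refine Countable.union ((hS.biUnion fun s _ => (an {x | ht x = ht s} fun x hx y hy n k =>
      (mono (k.lt_of_ne n)).ne (hx.trans hy.symm)).biUnion fun x _ => ch _ (tr x)).mono ?_)
      (countable_iUnion fun m => countable_iUnion fun n =>
        (countable_pi fun _ => hS).biUnion fun u _ => (countable_pi fun _ => hS).biUnion
          fun a _ => countable_iUnion fun h => (spe n a h.1 h.2 _ (fun s hs => hs.1.1)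
            (anti _)).biUnion fun s _ => countable_range s)
    rintro t ⟨s, s1, s2⟩
    obtain ⟨x, x1, x2⟩ := no t s s2
    exact mem_biUnion s1 (mem_biUnion x2 x1)
  obtain ⟨t0⟩ : Nonempty T := inferInstance
  obtain ⟨Z, z0, z1⟩ : ∃ Z : ℕ → Set T, Z 0 = {t0} ∧ ∀ k, Z (k + 1) = Φ (Z k) :=
    ⟨fun k => Nat.rec {t0} (fun _ => Φ) k, rfl, fun _ => rfl⟩
  have zc : ∀ k, (Z k).Countable := fun k => by
    induction k with
    | zero => rw [z0]; exact countable_singleton _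
    | succ k ih => rw [z1]; exact cΦ _ ih
  have zm : Monotone Z := monotone_nat_of_le_succ fun k t h => by
    rw [z1]; exact Or.inl ⟨t, h, le_rfl⟩
  have L : ∀ s ∈ ⋃ k, Z k, ∀ t, ht t ≤ ht s → t ∈ ⋃ k, Z k := fun s hs t h => by
    obtain ⟨k, hk⟩ := mem_iUnion.mp hs
    exact mem_iUnion.mpr ⟨k + 1, by rw [z1]; exact Or.inl ⟨s, hk, h⟩⟩
  have key : ∀ G : Set T, G.Finite → ∃ U ∈ 𝒰, ∀ x ∈ G,
      (x ∈ ⋃ k, Z k → x ∈ U) ∧ (x ∉ ⋃ k, Z k → Ici x ⊆ U) := by
    intro G hG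
    obtain ⟨m, u, -, hu⟩ := (hG.inter_of_left (⋃ k, Z k)).fin_param
    obtain ⟨n, r, r1, r2⟩ := ((hG.subset (diff_subset (t := ⋃ k, Z k))).image
      fun x => Iic x ∩ ⋃ k, Z k).fin_param
    choose x x1 x2 using fun i => show r i ∈ _ from r2 ▸ mem_range_self i
    have : ∀ i j, ∃ p ∈ ⋃ k, Z k, i ≠ j → ¬ (p ≤ x i ↔ p ≤ x j) := fun i j => by
      by_contra t
      push Not at t
      refine (t t0 (mem_iUnion.mpr ⟨0, by simp [z0]⟩)).1 (r1 ?_)
      rw [← x2, ← x2]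
      ext p
      exact and_congr_left fun h => (t p h).2
    choose p p1 p2 using this
    obtain ⟨q, q1, q2⟩ := exists_max_image _ ht ((finite_range (uncurry p)).insert t0)
      (insert_nonempty _ _)
    have q3 : q ∈ ⋃ k, Z k := by
      rcases q1 with rfl | ⟨i, rfl⟩
      exacts [mem_iUnion.mpr ⟨0, by simp [z0]⟩, p1 _ _]
    have hi : ∀ i, ∀ s ∈ ⋃ k, Z k, ht s ≤ ht (x i) := fun i s hs =>
      le_of_not_ge fun k => (x1 i).2 (L s hs _ k)
    choose a a1 a2 using fun i => pred (x i) q (hi i q q3)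
    have ai : Injective a := fun i j h => by
      by_contra t
      have k := q2 (p i j) (Or.inr ⟨(i, j), rfl⟩)
      exact p2 i j t ⟨fun l => (below l (a1 i) (a2 i ▸ k)).trans (h ▸ a1 j),
        fun l => (below l (a1 j) (a2 j ▸ k)).trans (h ▸ a1 i)⟩
    obtain ⟨U, U1, U2⟩ := om (range u ∪ range x) ((finite_range u).union (finite_range x))
    choose y y1 y2 using fun i => nb U (hU.1 U U1) (x i) (U2 (Or.inr ⟨i, rfl⟩))
    obtain ⟨w, -, w2⟩ := exists_max_image _ ht ((finite_range y).insert t0) (insert_nonempty _ _)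
    choose v v1 v2 using fun i => no (y i) w (w2 _ (Or.inr ⟨i, rfl⟩))
    obtain ⟨s, s1, s2⟩ := exists_minimal_le_of_wellFoundedLT (E m n u a) v
      ⟨⟨fun i => (a1 i).trans ((y1 i).le.trans (v1 i)), fun i j => (v2 i).trans (v2 j).symm⟩,
        U, U1, subset_union_left.trans U2, fun i => (Ici_subset_Ici.mpr (v1 i)).trans (y2 i)⟩
    obtain ⟨k, hk⟩ : ∃ k, (∀ i, u i ∈ Z k) ∧ ∀ i, a i ∈ Z k := by
      choose c hc using fun i => mem_iUnion.mp (show u i ∈ _ from hu ▸ mem_range_self i :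
        u i ∈ G ∩ ⋃ k, Z k).2
      choose d hd using fun i => mem_iUnion.mp (L q q3 (a i) (a2 i).le)
      obtain ⟨c', hc'⟩ := (finite_range c).bddAbove
      obtain ⟨d', hd'⟩ := (finite_range d).bddAbove
      exact ⟨max c' d', fun i => zm ((hc' ⟨i, rfl⟩).trans (le_max_left _ _)) (hc i),
        fun i => zm ((hd' ⟨i, rfl⟩).trans (le_max_right _ _)) (hd i)⟩
    have sz : ∀ i, s i ∈ ⋃ k, Z k := fun i => mem_iUnion.mpr ⟨k + 1, by
      rw [z1]
      exact Or.inr (mem_iUnion₂.mpr ⟨m, n, mem_biUnion hk.1 (mem_biUnion hk.2 (mem_iUnion.mpr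
        ⟨⟨ai, fun i j => (a2 i).trans (a2 j).symm⟩, mem_biUnion s2 ⟨i, rfl⟩⟩))⟩)⟩
    obtain ⟨-, V, V1, V2, V3⟩ := s2.1
    refine ⟨V, V1, fun z hz => ⟨fun h => V2 (hu ▸ ⟨hz, h⟩), fun h => ?_⟩⟩
    obtain ⟨i, hi'⟩ : Iic z ∩ ⋃ k, Z k ∈ range r := r2 ▸ ⟨z, ⟨hz, h⟩, rfl⟩
    have : s i ∈ Iic (x i) ∩ ⋃ k, Z k :=
      ⟨below (s1 i) ((y1 i).le.trans (v1 i)) (hi i _ (sz i)), sz i⟩
    rw [show Iic (x i) ∩ ⋃ k, Z k = r i from x2 i, hi'] at this
    exact (Ici_subset_Ici.mpr this.1).trans (V3 i)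
  obtain ⟨g, hg⟩ := ((countable_iUnion zc).union (an _ (anti (· ∉ ⋃ k, Z k)))).exists_eq_range
    ⟨t0, Or.inl (mem_iUnion.mpr ⟨0, by simp [z0]⟩)⟩
  choose U U1 U2 using fun k => key (g '' Iic k) ((finite_Iic k).image g)
  have ev : ∀ x, ∃ j, ∀ k, j ≤ k → x ∈ U k := fun x => by
    by_cases c : x ∈ ⋃ k, Z k
    · obtain ⟨j, rfl⟩ : x ∈ range g := hg ▸ Or.inl c
      exact ⟨j, fun k hk => (U2 k _ ⟨j, hk, rfl⟩).1 c⟩
    · obtain ⟨b, b1, b2⟩ := exists_minimal_le_of_wellFoundedLT (· ∉ ⋃ k, Z k) x c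
      obtain ⟨j, rfl⟩ : b ∈ range g := hg ▸ Or.inr b2
      exact ⟨j, fun k hk => (U2 k _ ⟨j, hk, rfl⟩).2 b2.1 b1⟩
  have sub : range U ⊆ 𝒰 := range_subset_iff.mpr U1
  refine ⟨range U, sub, ⟨fun V h => hU.1 V (sub h), eq_univ_of_forall fun x => ?_,
    fun h => hU.2.2 (sub h)⟩, fun h => ?_, fun x => ?_⟩
  · obtain ⟨j, hj⟩ := ev x
    exact ⟨_, ⟨j, rfl⟩, hj j le_rfl⟩
  · haveI := h.to_subtype
    obtain ⟨V, hV⟩ := Finite.exists_infinite_fiber fun k => (⟨U k, k, rfl⟩ : range U)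
    refine hU.2.2 (eq_univ_of_forall (fun x => ?_) ▸ sub V.2)
    obtain ⟨j, hj⟩ := ev x
    obtain ⟨k, k1, k2⟩ := (infinite_coe_iff.mp hV).exists_gt j
    exact (show U k = V.1 from congrArg Subtype.val k1) ▸ hj k k2.le
  · obtain ⟨j, hj⟩ := ev x
    refine ((finite_Iio j).image U).subset ?_
    rintro _ ⟨⟨k, rfl⟩, t⟩
    exact ⟨k, not_le.mp fun l => t (hj k l), rfl⟩

end Pool.Agent.Results.MP_1599f7_gt.Free
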